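import Mathlib
import Pool.Agent.Helper86.Sync.Member

/-!
# Recognising totally synchronizing digraphs is coNP-complete
-/

open Turing Computability

namespace Pool.Agent.Results.MP_00a7b4_lc.CoNPComplete

/-- The automaton (with state set `Fin n` and alphabet `Fin k`) that a colouring `σ` makes of the
`k`-out-regular digraph `head`. The digraph has the vertices `0, ..., n - 1`, and its edges are the
pairs `(v, e)` with `v : Fin n` and `e : Fin k`; the edge `(v, e)` leaves `v` and has the head
`head v e` (loops and parallel edges are allowed). The colouring assigns the letter `a` at the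
vertex `v` to the edge `(v, σ v a)`. -/
def automaton {n k : ℕ} (head : Fin n → Fin k → Fin n) (σ : Fin n → Equiv.Perm (Fin k)) :
    Fin n → Fin k → Fin n := fun v a => head v (σ v a)

/-- A complete deterministic automaton with transition function `δ` is synchronizing if some word
`w` satisfies `|{δ(v, w) : v ∈ V}| = 1`. -/
def IsSynchronizing {n k : ℕ} (δ : Fin n → Fin k → Fin n) : Prop :=
  ∃ w : List (Fin k), (Set.range fun v : Fin n => w.foldl δ v).ncard = 1

/-- A `k`-out-regular digraph is totally synchronizing if all its `(k!)^n` colourings yield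
synchronizing automata. -/
def IsTotallySynchronizing {n k : ℕ} (head : Fin n → Fin k → Fin n) : Prop :=
  ∀ σ : Fin n → Equiv.Perm (Fin k), IsSynchronizing (automaton head σ)

/-- The unary code of a number: `m` times `true`, then `false`. -/
def unary (m : ℕ) : List Bool := List.replicate m true ++ [false]

/-- The code of a digraph: the number `n` of vertices, the out-degree `k`, and the heads of all
edges, listed vertex by vertex, all numbers in unary. -/
def code {n k : ℕ} (head : Fin n → Fin k → Fin n) : List Bool :=
  unary n ++ unary k ++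
    (List.ofFn fun v : Fin n => (List.ofFn fun e : Fin k => unary (head v e)).flatten).flatten

/-- The language TOTSYNC: the codes of the totally synchronizing digraphs. -/
def TOTSYNC : Set (List Bool) :=
  {w | ∃ (n k : ℕ) (head : Fin n → Fin k → Fin n), 0 < n ∧ 0 < k ∧ w = code head ∧
    IsTotallySynchronizing head}

/-- The function `f` on strings is computable in polynomial time by a Turing machine. -/
def PolyTimeFun (f : List Bool → List Bool) : Prop :=
  Nonempty (TM2ComputableInPolyTime (id : List Bool → List Bool) (id : List Bool → List Bool) f)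

/-- The Boolean function `R` of two strings is computable in polynomial time by a Turing machine. -/
def PolyTimeRel (R : List Bool × List Bool → Bool) : Prop :=
  Nonempty (TM2ComputableInPolyTime
    (encodingProd (encodingList Bool) (encodingList Bool)).encode encodeBool R)

/-- The class NP: `x ∈ L` if and only if there is a certificate `y` of length polynomial in the
length of `x` that is accepted by a fixed polynomial-time verifier. -/
def InNP (L : Set (List Bool)) : Prop :=
  ∃ (p : Polynomial ℕ) (R : List Bool × List Bool → Bool), PolyTimeRel R ∧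
    ∀ x, x ∈ L ↔ ∃ y : List Bool, y.length ≤ p.eval x.length ∧ R (x, y) = true

/-- The class coNP. -/
def InCoNP (L : Set (List Bool)) : Prop := InNP Lᶜ

/-- Polynomial-time many-one reducibility. -/
def Reduces (A B : Set (List Bool)) : Prop :=
  ∃ f : List Bool → List Bool, PolyTimeFun f ∧ ∀ x, x ∈ A ↔ f x ∈ B

/-- Completeness for coNP under polynomial-time many-one reductions. -/
def IsCoNPComplete (A : Set (List Bool)) : Prop := InCoNP A ∧ ∀ L, InCoNP L → Reduces L A

open Pool.Agent.Helper86.Sync Pool.Agent.Helper86.XC
open Pool.Agent.Helper91.PolyTime Pool.Agent.Helper91.Verifier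

lemma isSynchronizing_iff {n k : ℕ} (hn : 0 < n) (δ : Fin n → Fin k → Fin n) :
    IsSynchronizing δ ↔ IsSync δ := by
  refine exists_congr fun w => ?_
  rw [Set.ncard_eq_one]
  refine exists_congr fun q => ?_
  constructor
  · intro h v
    have : w.foldl δ v ∈ Set.range fun v : Fin n => w.foldl δ v := ⟨v, rfl⟩
    rw [h] at this
    exact this
  · intro h
    ext z
    constructor
    · rintro ⟨v, rfl⟩
      exact h v
    · intro hz
      rw [Set.mem_singleton_iff] at hz
      exact ⟨⟨0, hn⟩, by rw [hz]; exact h _⟩

lemma isTotallySynchronizing_iff {n k : ℕ} (hn : 0 < n) (head : Fin n → Fin k → Fin n) :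
    IsTotallySynchronizing head ↔ TotSync head :=
  forall_congr' fun _ => isSynchronizing_iff hn _

lemma codeList_flatten (L : List (List ℕ)) : codeList L.flatten = (L.map codeList).flatten := by
  induction L with
  | nil => rfl
  | cons a L ih =>
    rw [List.flatten_cons, List.map_cons, List.flatten_cons, ← ih]
    simp [codeList]

lemma code_eq {n k : ℕ} (head : Fin n → Fin k → Fin n) : code head = gcode head := by
  have h1 : gcode head = unary n ++ (unary k ++ codeList (heads head)) := rfl
  rw [h1, heads, codeList_flatten, code, List.append_assoc, List.map_ofFn]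
  congr 3
  congr 1
  funext v
  simp only [Function.comp_def, codeList, List.flatMap_def, List.map_ofFn]
  rfl

lemma totSync_of_gcode_eq {n k n' k' : ℕ} {head : Fin n → Fin k → Fin n}
    {head' : Fin n' → Fin k' → Fin n'} (h : gcode head = gcode head') (hT : TotSync head') :
    TotSync head := by
  have h1 : n :: k :: heads head = n' :: k' :: heads head' := by
    have := congrArg (fun x => (parse x).1) h
    simpa [gcode, parse_codeList] using this
  simp only [List.cons.injEq] at h1
  obtain ⟨rfl, rfl, h2⟩ := h1
  have h3 : head = head' := by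
    funext v e
    have h4 := getElem?_heads head v e
    rw [h2, getElem?_heads head' v e] at h4
    exact (Fin.ext (by simpa using h4)).symm
  rw [h3]; exact hT

/-- TOTSYNC is in coNP. -/
theorem totsync_inCoNP : InCoNP TOTSYNC := by
  refine ⟨certBound, verifier, tm2_of_ptf ptf_verifier, fun x => ?_⟩
  rw [verifier_iff, Set.mem_compl_iff, not_iff_not]
  refine exists_congr fun n => exists_congr fun k => exists_congr fun head => ?_
  constructor
  · rintro ⟨hn, hk, hx, hT⟩
    exact ⟨hn, hk, by rw [hx, code_eq], (isTotallySynchronizing_iff hn head).1 hT⟩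
  · rintro ⟨hn, hk, hx, hT⟩
    exact ⟨hn, hk, by rw [hx, code_eq], (isTotallySynchronizing_iff hn head).2 hT⟩

/-- TOTSYNC is coNP-hard. -/
theorem totsync_hard (L : Set (List Bool)) (hL : InCoNP L) : Reduces L TOTSYNC := by
  obtain ⟨p, R, hR, hL⟩ := hL
  obtain ⟨E, _, _, S, U, hS, hU, hcov⟩ := exists_cover p R hR
  -- the parameters of the digraph
  let t : List Bool → ℕ := fun x => (S x).length + 2
  let m : List Bool → ℕ := fun x => (U x).length + 1
  let β : List Bool → ℕ := fun x => 8 * (S x).length + 11
  let b : List Bool → ℕ → ℕ → ℕ := fun x => mat (S x).length (incl (S x) (U x))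
  let f : List Bool → List Bool := fun x => codeList (num (t x) (m x) :: 2 * β x ::
    (List.range (num (t x) (m x))).flatMap (out (t x) (m x) (β x) (b x)))
  have hβ : ∀ x, ∀ j < m x, 4 * rowSum (t x) (b x) j + 3 ≤ β x := by
    intro x j _
    have := rowSum_mat_le (S x).length (incl (S x) (U x)) j
    show 4 * rowSum ((S x).length + 2) (mat (S x).length (incl (S x) (U x))) j + 3 ≤
      8 * (S x).length + 11
    omega
  have hβ0 : ∀ x, 0 < β x := fun x => by simp only [β]; omega
  refine ⟨f, ?_, fun x => ?_⟩
  · -- polynomial time
    refine tm2_of_ptf_str (PTF.strOfList ?_)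
    have hx : PTF (fun x : Str => x.toList) := PTF.strToList PTF.id
    have hf : PTF f := by
      have hSl : PTF (fun x => (S x).length) := PTF.length hS
      have hUl : PTF (fun x => (U x).length) := PTF.length hU
      have ht : PTF t := PTF.add hSl (PTF.const 2)
      have hm : PTF m := PTF.succ hUl
      have hβp : PTF β := PTF.add (PTF.mul (PTF.const 8) hSl) (PTF.const 11)
      have hnum : PTF (fun x => num (t x) (m x)) :=
        PTF.add (PTF.add (PTF.succ hm) (PTF.succ hm)) ht
      have hinc : PTF (fun q : ((List Bool × ℕ) × ℕ × ℕ) × ℕ × ℕ =>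
          incl (S q.1.1.1) (U q.1.1.1) q.2.1 q.2.2) :=
        ptf_incl (hS.comp PTF.id.fst.fst.fst) (hU.comp PTF.id.fst.fst.fst) PTF.id.snd.fst
          PTF.id.snd.snd
      have hb : PTF (fun q : (List Bool × ℕ) × ℕ × ℕ => b q.1.1 q.2.1 q.2.2) :=
        ptf_mat (inc := fun q : (List Bool × ℕ) × ℕ × ℕ => incl (S q.1.1) (U q.1.1))
          (hSl.comp PTF.id.fst.fst) PTF.id.snd.fst PTF.id.snd.snd hinc
      refine ptf_codeList (PTF.cons hnum (PTF.cons (PTF.mul (PTF.const 2) hβp)
        (PTF.flatMap (PTF.range hnum) ?_)))
      exact ptf_out (b := fun q : List Bool × ℕ => b q.1) (ht.comp PTF.id.fst)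
        (hm.comp PTF.id.fst) (hβp.comp PTF.id.fst) PTF.id.snd hb
    exact hf.comp hx
  · have h1 : x ∈ L ↔ ¬ Cover (S x) (U x) := by
      have h2 := hL x
      rw [Set.mem_compl_iff] at h2
      rw [← not_iff_not, not_not, h2]
      exact hcov x
    have h2 := totSync_iff (t := t x) (m := m x) (β := β x) (b := b x) (hβ x) (hβ0 x)
    have h3 : Balanced (t x) (m x) (b x) ↔ Cover (S x) (U x) :=
      (balanced_iff (S x).length (U x).length (incl (S x) (U x))).trans (xci_iff (S x) (U x))
    have h4 : f x = gcode (headOf (num (t x) (m x)) (2 * β x) (out (t x) (m x) (β x) (b x))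
        (valid_out (hβ x))) := by
      unfold gcode
      rw [heads_headOf]
    have hn : 0 < num (t x) (m x) := by unfold num; omega
    have hk : 0 < 2 * β x := by have := hβ0 x; omega
    rw [h1, ← h3, ← h2]
    constructor
    · intro hT
      exact ⟨_, _, _, hn, hk, by rw [code_eq]; exact h4,
        (isTotallySynchronizing_iff hn _).2 hT⟩
    · rintro ⟨n', k', head', hn', hk', hcode, hT⟩
      rw [code_eq, h4] at hcode
      exact totSync_of_gcode_eq hcode ((isTotallySynchronizing_iff hn' head').1 hT)

/-- **The result.** Recognising totally synchronizing digraphs is coNP-complete under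
polynomial-time many-one reductions. -/
theorem result : IsCoNPComplete TOTSYNC := ⟨totsync_inCoNP, totsync_hard⟩

end Pool.Agent.Results.MP_00a7b4_lc.CoNPComplete
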